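import Pool.Agent.Lib.MP_545c5e_lc.Final2

/-! Shortest tours in histogram grid graphs, in particular in Young diagrams. -/

namespace Pool.Agent.Results.MP_545c5e_lc.Histograms

open MP545

/-- The ties of a histogram with column lengths `h`: an even number of consecutive columns
`p.1, ..., p.2` between two columns of the same length `t`, a positive multiple of four, all of
them longer than `t` by at least two. -/
def ties (h : ℤ → ℤ) : Set (ℤ × ℤ) :=
  {p | p.1 < p.2 ∧ Odd (p.2 - p.1) ∧ 0 < h (p.1 - 1) ∧ 4 ∣ h (p.1 - 1) ∧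
    h (p.1 - 1) = h (p.2 + 1) ∧ ∀ x, p.1 ≤ x → x ≤ p.2 → h (p.1 - 1) + 2 ≤ h x}

/-- Let `V` be the vertex set of a 2-connected histogram: the column `x` consists of the points
`(1, x), ..., (h x, x)`, `lo ≤ x ≤ hi`, `h x ≥ 2`, no column is longer than both neighbours. Let
`d` be the least number of vertices of degree different from two in a subgraph of the grid graph
with even degrees (not necessarily connected), and `L` the length of a shortest tour. Then
`|V| + d ≤ L ≤ |V| + d + 2 τ`, where `τ` is the number of ties. -/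
theorem result (lo hi : ℤ) (h : ℤ → ℤ) (hlt : lo < hi)
    (hout : ∀ x, x < lo ∨ hi < x → h x = 0)
    (htwo : ∀ x, lo ≤ x → x ≤ hi → 2 ≤ h x)
    (hconn : ∀ x, h x ≤ max (h (x - 1)) (h (x + 1)))
    (V : Finset (ℤ × ℤ)) (hV : ∀ p, p ∈ V ↔ 1 ≤ p.1 ∧ p.1 ≤ h p.2) :
    (ties h).Finite ∧
    ∃ d L, IsLeast {d | ∃ F, IsEvenSub (gridGraph V) F ∧ defect F = d} d ∧
      IsLeast {L | IsTourLength (gridGraph V) L} L ∧
      V.card + d ≤ L ∧ L ≤ V.card + d + 2 * (ties h).ncard := by
  let G : Hist := ⟨lo, hi, h, hlt, hout, htwo, hconn⟩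
  have he : (ties h) = (G.ties : Set (ℤ × ℤ)) := by
    ext ⟨x0, x1⟩
    rw [Finset.mem_coe, G.mem_ties]
    rfl
  have hcard : (ties h).ncard = G.ties.card := by
    rw [he, Set.ncard_coe_finset]
  rw [hcard]
  refine ⟨by rw [he]; exact Finset.finite_toSet _, ?_⟩
  exact final2 G V hV

end Pool.Agent.Results.MP_545c5e_lc.Histograms
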